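import Pool.Agent.Run7.h570.GH.Iface

/-!
# Graph hypersurfaces: piece PEnd
-/

set_option autoImplicit false

open CategoryTheory AlgebraicGeometry MvPolynomial Pool.Agent.Y116.UV Pool.Agent.Z125.UN
  Pool.Agent.Q282.UZ

namespace Run7.h930.GH.End

open Run7.h570.GH

section

variable {R : Type} [CommRing R]

lemma rg_coord {σ : Type} (S : Fam R σ) (t : σ) : Rg S fun _ _ _ x => x t :=
  ⟨X t, 1, fun K _ _ x _ => by
    rw [map_one, aeval_X, mul_one]
    exact ⟨one_ne_zero, rfl⟩⟩

lemma is_sys {a b c : ℕ} (E : Fin c → Finset (Fin a × Fin b)) :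
    Is (SysFam R E) (fun l => few R (E l)) 1 := by
  intro K _ _ x
  have h1 : ∀ l, aeval x (few R (E l)) = ∑ e ∈ E l, x (Sum.inl e.1) * x (Sum.inr e.2) := by
    intro l
    simp only [few, map_sum, map_mul, aeval_X]
  constructor
  · intro h
    refine ⟨fun l => ?_, ?_⟩
    · rw [h1]
      exact h l
    · rw [map_one]
      exact one_ne_zero
  · rintro ⟨h, _⟩ l
    rw [← h1]
    exact h l

end

theorem t_PEnd : PEnd := by
  intro R _ sep P hP hK a b c E h
  have h1 : P (aff R (Pc (fun l => few R (E l)) 1)) :=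
    hK.iso (SysFam R E) (SysFam R E) (fun _ _ _ x => x) (fun _ _ _ x => x)
      (fun t => rg_coord _ t) (fun t => rg_coord _ t) (fun _ _ _ _ hx => hx)
      (fun _ _ _ _ hx => hx) (fun _ _ _ _ _ => rfl) (fun _ _ _ _ _ => rfl) h _ _ (is_sys E)
  exact Pool.Agent.Q282.UK.clo_alg hP.toClo (oneE (fun l => few R (E l))).symm h1

end Run7.h930.GH.End
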