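import Pool.Agent.Run7.h570.GH.Iface

/-!
# Graph hypersurfaces: piece PSplit
-/

set_option autoImplicit false

open CategoryTheory AlgebraicGeometry MvPolynomial Pool.Agent.Y116.UV Pool.Agent.Z125.UN
  Pool.Agent.Q282.UZ

namespace Run7.h930.GH

open Run7.h570.GH

section

variable {R : Type} [CommRing R]

lemma rg_coord {σ : Type} (S : Fam R σ) (t : σ) : Rg S fun _ _ _ x => x t :=
  ⟨X t, 1, fun K _ _ x _ => by
    rw [map_one, aeval_X, mul_one]
    exact ⟨one_ne_zero, rfl⟩⟩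

/-- The presentation does not matter. -/
lemma pres (hI : PIso) {sep : Prop} {P : Sch R → Prop} (hP : GClo sep P) {σ : Type} [Finite σ]
    {S : Fam R σ} (h : Q P S) {κ : Type} (G : κ → MvPolynomial σ R) (w : MvPolynomial σ R)
    (hG : Is S G w) : P (aff R (Pc G w)) :=
  hI sep P hP S S (fun _ _ _ x => x) (fun _ _ _ x => x) (fun t => rg_coord S t)
    (fun t => rg_coord S t) (fun _ _ _ _ hx => hx) (fun _ _ _ _ hx => hx) (fun _ _ _ _ _ => rfl)
    (fun _ _ _ _ _ => rfl) h G w hG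

lemma is_clo {σ κ : Type} {S : Fam R σ} {G : κ → MvPolynomial σ R} {w : MvPolynomial σ R}
    (hG : Is S G w) (e : MvPolynomial σ R) :
    Is (fun K _ _ x => S K x ∧ aeval x e = 0) (adj G e) w := by
  intro K _ _ x
  show (S K x ∧ aeval x e = 0) ↔ _
  rw [hG K x]
  constructor
  · rintro ⟨⟨h1, h2⟩, h3⟩
    refine ⟨?_, h2⟩
    rintro (_ | k)
    · exact h3
    · exact h1 k
  · rintro ⟨h1, h2⟩
    exact ⟨⟨fun k => h1 (some k), h2⟩, h1 none⟩

lemma is_opn {σ κ : Type} {S : Fam R σ} {G : κ → MvPolynomial σ R} {w : MvPolynomial σ R}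
    (hG : Is S G w) (e : MvPolynomial σ R) :
    Is (fun K _ _ x => S K x ∧ aeval x e ≠ 0) G (w * e) := by
  intro K _ _ x
  show (S K x ∧ aeval x e ≠ 0) ↔ _
  rw [hG K x, map_mul, and_assoc, mul_ne_zero_iff]

end

theorem t_PSplit : PIso → PSplit := by
  intro hI R _ sep P hP σ _ S e
  refine ⟨?_, ?_, ?_⟩
  · rintro ⟨κ, G, w, hG⟩ hc ho
    refine ⟨κ, G, w, hG, ?_⟩
    have h1 := pres hI hP hc _ _ (is_clo hG e)
    have h2 := pres hI hP ho _ _ (is_opn hG e)
    exact hP.total _ _ (ft_aff sep) (triple_away (pc G w e))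
      (Pool.Agent.Q282.UK.clo_alg hP.toClo (cloE G w e).symm h1)
      (Pool.Agent.Q282.UK.clo_alg hP.toClo (opnE G w e).symm h2)
  · rintro ⟨κ, G, w, hG, hw⟩ hc
    refine ⟨κ, G, w * e, is_opn hG e, ?_⟩
    have h1 := pres hI hP hc _ _ (is_clo hG e)
    have : Algebra.FiniteType R (Localization.Away (pc G w e)) :=
      Algebra.FiniteType.trans (S := Pc G w) inferInstance inferInstance
    exact Pool.Agent.Q282.UK.clo_alg hP.toClo (opnE G w e)
      (hP.opened _ _ (ft_aff sep) (triple_away (pc G w e))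
        (Pool.Agent.Q282.UK.clo_alg hP.toClo (cloE G w e).symm h1) hw)
  · rintro ⟨κ, G, w, hG, hw⟩ ho
    refine ⟨Option κ, adj G e, w, is_clo hG e, ?_⟩
    have h2 := pres hI hP ho _ _ (is_opn hG e)
    exact Pool.Agent.Q282.UK.clo_alg hP.toClo (cloE G w e)
      (hP.closed _ _ (ft_aff sep) (triple_away (pc G w e)) hw
        (Pool.Agent.Q282.UK.clo_alg hP.toClo (opnE G w e).symm h2))

end Run7.h930.GH
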